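import Pool.Agent.helper17.RX.Spec

set_option autoImplicit false

namespace TP.TW

open DP MeasureTheory Finset

private theorem FNR_arith (C ρ L : ℝ) (r : ℕ) (hC : 1 ≤ C) (hρ : 1 ≤ ρ) (hL : 1 / 2 ≤ L) :
    1 + (C * (ρ * L)) ^ (r + 1) * (204 * ρ) ^ r ≤ (816 * C * (ρ ^ 2 * L)) ^ (r + 1) := by
  have hρ2 : 1 ≤ ρ ^ 2 := one_le_pow₀ hρ
  have hY : 1 ≤ 204 * C * (ρ ^ 2 * L) := by
    have h1 : 1 / 2 ≤ ρ ^ 2 * L := by nlinarith
    have h2 : 1 / 2 ≤ C * (ρ ^ 2 * L) := by nlinarith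
    nlinarith
  have hY1 : 1 ≤ (204 * C * (ρ ^ 2 * L)) ^ (r + 1) := one_le_pow₀ hY
  have h0 : 0 ≤ (C * (ρ * L)) ^ (r + 1) := by positivity
  have h3 : (204 * ρ) ^ r ≤ (204 * ρ) ^ (r + 1) := pow_le_pow_right₀ (by linarith) (by omega)
  have h4 : (C * (ρ * L)) ^ (r + 1) * (204 * ρ) ^ r ≤ (204 * C * (ρ ^ 2 * L)) ^ (r + 1) := by
    refine (mul_le_mul_of_nonneg_left h3 h0).trans (le_of_eq ?_)
    rw [← mul_pow]
    congr 1
    ring
  have h5 : (816 * C * (ρ ^ 2 * L)) ^ (r + 1) = 4 ^ (r + 1) * (204 * C * (ρ ^ 2 * L)) ^ (r + 1) := by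
    rw [← mul_pow]
    congr 1
    ring
  have h6 : (4 : ℝ) ≤ 4 ^ (r + 1) := by
    have : (4 : ℝ) ^ 1 ≤ 4 ^ (r + 1) := pow_le_pow_right₀ (by norm_num) (by omega)
    simpa using this
  rw [h5]
  nlinarith

theorem FNR (rlb : RLB_stmt) (lba : LBA_stmt) (drx : DRX_stmt) (snx : SNX_stmt) : FNR_stmt := by
  obtain ⟨C, hC, hS⟩ := snx
  refine ⟨816 * C, by linarith, ?_⟩
  intro n R hn hR b hb hdec
  obtain ⟨r, rfl⟩ : ∃ r, R = r + 1 := ⟨R - 1, by omega⟩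
  have h1 := rlb n (r + 1) hn hR b hb hdec
  obtain ⟨hR1, hbr, hcost⟩ := lba n b hb
  have h2 := hS r n (lb b (r + 1)) _ _ _ hn (Finset.Subset.refl _) (drx _ (lb b) r hR1 hbr)
  have h3 := hcost (r + 1)
  have hc0 : 0 ≤ cost b (r + 1) := by
    unfold cost
    apply div_nonneg
    · exact Finset.sum_nonneg fun _ _ => Nat.cast_nonneg _
    · positivity
  have hL : 1 / 2 ≤ Real.log n := by
    have h4 : Real.log 2 ≤ Real.log n := Real.log_le_log (by norm_num) (by exact_mod_cast hn)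
    have := Real.log_two_gt_d9
    linarith
  have hρ : (1 : ℝ) ≤ (r : ℝ) + 1 := by
    have : (0 : ℝ) ≤ r := Nat.cast_nonneg _
    linarith
  have hA := FNR_arith C ((r : ℝ) + 1) (Real.log n) r hC hρ hL
  have hK : 0 ≤ (C * (((r : ℝ) + 1) * Real.log n)) ^ (r + 1) * (204 * ((r : ℝ) + 1)) ^ r := by
    have : 0 ≤ Real.log n := by linarith
    positivity
  have h5 := mul_le_mul_of_nonneg_left h3 hK
  have h6 := mul_le_mul_of_nonneg_right hA hc0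
  push_cast
  calc (n : ℝ) ^ 2 ≤ _ := h1
    _ ≤ cost b (r + 1) + (C * (((r : ℝ) + 1) * Real.log n)) ^ (r + 1) * (204 * ((r : ℝ) + 1)) ^ r * cost b (r + 1) := by
        have := h2.trans h5
        linarith
    _ = (1 + (C * (((r : ℝ) + 1) * Real.log n)) ^ (r + 1) * (204 * ((r : ℝ) + 1)) ^ r) * cost b (r + 1) := by ring
    _ ≤ _ := h6

end TP.TW
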